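import Pool.Agent.H500.R2.Stm

set_option autoImplicit false
set_option linter.unusedSectionVars false

/-!
# Project SV (helper500): solvable residual images

## The theorem

`K`, `E` number fields, `N ≥ 2`, `P v ∈ 𝓞_E[X]` of degree `n` (`v` a place of `K`, `v ∤ N`).  Suppose that for
density one of the places `lam` of `E` there is a residual representation
`ρ_lam : G_K → GL_n(k)`, `k ⊇ 𝓞_E / lam`, unramified outside `N l`, Frobenius polynomials `P v mod lam`,
with SOLVABLE image.  Then there is a finite Galois extension `L / K`, solvable, unramified outside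
`N`, and algebraic Hecke characters `ψ_1, …, ψ_n` of `L` such that for all places `w` of `L`, `w ∤ N`,
above `v`, residue degree `f`: the `f`-th powers of the roots of `P v` are `ψ_1(w), …, ψ_n(w)`.

## Plan

1. Mal'cev: `ρ_lam` is diagonal on an open normal subgroup `U_lam` of bounded index (after
   semisimplification): `SD` (Parts 1, 2).
2. `Z M`: the elements `g` such that `ρ(g)` is in the algebra generated by the `ρ(u)^M`, `u ∈ U_lam`.
   For suitable `M` this is an open normal subgroup `U'_lam` of bounded index, which contains the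
   Frobenius elements at almost all fixed generic places `v` (no quotient of two different roots of
   `P v` is a root of unity), for almost all `lam` (Parts 8, 9, 10).
3. `S_Cyc` (class field theory, Kummer theory, Chebotarev): so `U'_lam` is unramified at `l` for almost
   all `lam`, and is the same subgroup for many `lam` (Part 11).
4. The theorem for sums of characters, over the field `L` of `U'_lam` (Part 12).
-/

namespace Pool.Agent.H500.SV

open NumberField IsDedekindDomain Filter Topology Polynomial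
open Pool.Agent.W401.Cheb (GK IsFrob IsInert dens)
open Pool.Agent.H500.HC (InRay IsRayChar TotPos QBar ZBar em typ jz)
open Pool.Agent.H500.MW (PosUD)
open Pool.Agent.H500.R2 (UnrOut SpC)

/-! ## Part A: linear groups -/

/-- conjugate to diagonal matrices -/
def Diagble {n : ℕ} {k : Type} [Field k] {G : Type} [Group G] (ρ : G →* GL (Fin n) k)
    (A : Subgroup G) : Prop :=
  ∃ Q : GL (Fin n) k, ∀ a ∈ A, ((Q * ρ a * Q⁻¹ : GL (Fin n) k) : Matrix (Fin n) (Fin n) k).IsDiag

/-- normal subgroups with abelian image are diagonalizable -/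
def SemiAb {n : ℕ} {k : Type} [Field k] {G : Type} [Group G] (ρ : G →* GL (Fin n) k) : Prop :=
  ∀ A : Subgroup G, A.Normal → (∀ a ∈ A, ∀ b ∈ A, ρ a * ρ b = ρ b * ρ a) → Diagble ρ A

/-- PART 1 (semisimplification).
Proof by induction on `n`.  If there is a stable subspace `0 ≠ W ≠ k^n`, then in a suitable basis `ρ` is
block triangular with diagonal blocks `ρ1`, `ρ2`; let `ρ'` be the block diagonal representation with
blocks `ρ1'`, `ρ2'`.  Otherwise (`ρ` irreducible, `n > 0`) `ρ' = ρ`: if `ρ(A)` is abelian, `A` has a common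
eigenvector (commuting endomorphisms over an algebraically closed field), and the sum of all the
weight spaces of `A` is stable under `G` (`A` normal), so it is `k^n`; a basis of weight vectors. -/
def S_SS : Prop := ∀ (n : ℕ) (k : Type) [Field k] [IsAlgClosed k] (G : Type) [Group G]
  (ρ : G →* GL (Fin n) k), ∃ ρ' : G →* GL (Fin n) k, ρ.ker ≤ ρ'.ker ∧
  (∀ g, (ρ' g : Matrix (Fin n) (Fin n) k).charpoly = (ρ g : Matrix (Fin n) (Fin n) k).charpoly) ∧
  SemiAb ρ'

/-- PART 2 (theorem of Mal'cev for finite solvable groups, any characteristic).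
Proof.  Let `G` be the (finite, solvable) image, `A` a maximal abelian normal subgroup of `G`; it is
diagonalizable, `V = ⊕ V_χ` (at most `n` weight spaces), `C` the centralizer of `A`.  `G` permutes the
weight spaces and the kernel of this permutation action is contained in `C`: `[G : C] ≤ n!`.  Let `B ⊆ C`,
`B / A` maximal among the abelian normal subgroups of `G / A` contained in `C / A`.  The centre of `B` contains `A`
and is abelian and normal in `G`, so it is `A`.  For `b, c ∈ B` the commutator is in `A`, so it acts as a scalar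
`e_χ(b, c)` on `V_χ` (bimultiplicative).  With `B_χ = {b : e_χ(b, c) = 1 ∀ c ∈ B}` representatives of different
classes of `B / B_χ` are linearly independent operators on `V_χ` (conjugate a shortest relation with `c`), so
`|B / B_χ| ≤ n²`; `⋂ B_χ` is the centre of `B`, i.e. `A`, so `s = |B / A| ≤ (n²)^n`.  The centralizer `Y` of `B` in `C` is
`A`: otherwise `Y / A` (normal in the solvable group `G / A`, `≠ 1`) contains an abelian normal subgroup
`D / A ≠ 1` of `G / A` (last nontrivial term of the derived series of `Y / A`), `D` centralizes `B`, `D B / A` is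
abelian, so `D ⊆ B`, and `D` is in the centre `A` of `B`, contradiction.  So an element `c` of `C` is determined
modulo `A` by the `c b_i c⁻¹`, `b_i` representatives of `B / A`; `c b_i c⁻¹ = b_j a` with `a ∈ A`, and `b_i^s ∈ A`, so
`b_i^s = (b_j a)^s = b_j^s a^s`: at most `s^n` possibilities for `a` (diagonal matrices).  So
`|C / A| ≤ (s^(n+1))^s`. -/
def S_Mal : Prop := ∀ n : ℕ, ∃ β : ℕ, ∀ (k : Type) [Field k] [IsAlgClosed k] (G : Type) [Group G]
  (ρ : G →* GL (Fin n) k), Finite ρ.range → IsSolvable ρ.range → SemiAb ρ →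
  ∃ U : Subgroup G, U.Normal ∧ ρ.ker ≤ U ∧ U.index ≤ β ∧ U.index ≠ 0 ∧
    ∀ a ∈ U, ∀ b ∈ U, ρ a * ρ b = ρ b * ρ a

/-- PART 3 (choice of an exponent).
Proof: `M 0 = B!`, `M (t + 1) = M t * m0 * (n²)!`.  A pair `(i, i')` is bad for `t` if
`(χ i / χ i')^(M t * m0 * s) = 1` for some `0 < s ≤ n²` and `(χ i / χ i')^(M t) ≠ 1`; then
`(χ i / χ i')^(M t') = 1` for all `t' > t`: so a pair is bad for at most one `t`.  There are `n²` pairs and
`n² + 1` values of `t`. -/
def S_Cho : Prop := ∀ n B m0 : ℕ, 0 < m0 → ∃ M : Fin (n ^ 2 + 1) → ℕ,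
  (∀ t, 0 < M t ∧ B.factorial ∣ M t) ∧
  ∀ (k H : Type) [Field k] [Group H] (χ : Fin n → (H →* kˣ)), ∃ t, ∀ i i',
    (∀ h, χ i h ^ M t = χ i' h ^ M t) ∨
    ∀ s : ℕ, 0 < s → s ≤ n ^ 2 → ∃ h, χ i h ^ (M t * m0 * s) ≠ χ i' h ^ (M t * m0 * s)

/-! ## Part B: fields -/

section
variable {K : Type} [Field K] [NumberField K]

/-- `w` lies above `v` -/
def Above {L : Type} [Field L] [NumberField L] [Algebra K L] (w : HeightOneSpectrum (𝓞 L))
    (v : HeightOneSpectrum (𝓞 K)) : Prop :=
  w.asIdeal.comap (algebraMap (𝓞 K) (𝓞 L)) = v.asIdeal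

/-- `L` is the field of the open normal subgroup `U` -/
structure Fld (U : Subgroup (GK K)) (L : Type) [Field L] [NumberField L] [Algebra K L]
    (ι : GK L →* GK K) : Prop where
  galois : IsGalois K L
  deg : Module.finrank K L = U.index
  sol : (∃ r, derivedSeries (GK K) r ≤ U) → IsSolvable (L ≃ₐ[K] L)
  inj : Function.Injective ι
  range : ι.range = U
  comap_open : ∀ V : Subgroup (GK K), IsOpen (V : Set (GK K)) →
    IsOpen ((V.comap ι : Subgroup (GK L)) : Set (GK L))
  map_open : ∀ V : Subgroup (GK L), IsOpen (V : Set (GK L)) →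
    IsOpen ((V.map ι : Subgroup (GK K)) : Set (GK K))
  inert : ∀ (v : HeightOneSpectrum (𝓞 K)) (w : HeightOneSpectrum (𝓞 L)), Above w v →
    ∀ s, IsInert w s → IsInert v (ι s)
  inert' : ∀ (v : HeightOneSpectrum (𝓞 K)) (s : GK L), IsInert v (ι s) →
    ∃ w : HeightOneSpectrum (𝓞 L), Above w v ∧ IsInert w s
  frob : ∀ (v : HeightOneSpectrum (𝓞 K)) (w : HeightOneSpectrum (𝓞 L)), Above w v →
    ∃ f : ℕ, Ideal.absNorm w.asIdeal = Ideal.absNorm v.asIdeal ^ f ∧
    ∀ s, IsFrob w s → ∃ σ τ, IsFrob v σ ∧ IsInert v τ ∧ ι s = σ ^ f * τ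
  unr : ∀ M : ℕ, UnrOut M U → ∀ (v : HeightOneSpectrum (𝓞 K)) (w : HeightOneSpectrum (𝓞 L)),
    Above w v → (M : 𝓞 K) ∉ v.asIdeal →
    ¬ v.asIdeal.map (algebraMap (𝓞 K) (𝓞 L)) ≤ w.asIdeal ^ 2
  frob' : ∀ (v : HeightOneSpectrum (𝓞 K)) (s : GK L), IsFrob v (ι s) →
    ∃ w : HeightOneSpectrum (𝓞 L), Above w v ∧
      Ideal.absNorm w.asIdeal = Ideal.absNorm v.asIdeal ∧ IsFrob w s

end

/-- PART 4 (the field of an open normal subgroup).
Proof.  `L` = the fixed field of `U` in `AlgebraicClosure K` (finite Galois over `K`: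
`Pool.Agent.H643.AS.Bridge.exists_field`; compare `Pool/Agent/H500/MLF.lean` `exists_level`),
`e : AlgebraicClosure L ≃ AlgebraicClosure K` over `L`, `ι σ = e σ e⁻¹`.  `unr`:
`unramified_of_inert` in `Pool/Agent/H643/AS/Unr.lean`.  `e` maps maximal ideals of
the integers to maximal ideals; `Q` above `w` corresponds to an ideal above `v`.  `frob`: `q_w = q_v^f`; let `s` be
Frobenius at `w` for `Q`, choose `σ` Frobenius at `v` for the same `Q` (exists: `Pool.Agent.W401.Frob.main`, conjugation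
`frob_conj` and transitivity, or the proof of `exists_frob`); `σ^f` and `ι s` act in the same way modulo `Q`, so
`(σ^f)⁻¹ ι s` is an inertia element for `Q`.  `frob'`: `Q` above `v` for `ι s`, `w = Q ∩ 𝓞_L`: `s` acts trivially
on `L` so `x^{q_v} ≡ x mod w` for `x ∈ 𝓞_L`; `𝓞_L / w` has at most `q_v` elements, so exactly `q_v`. -/
def S_Fld : Prop := ∀ (K : Type) [Field K] [NumberField K] (U : Subgroup (GK K)), U.Normal →
  IsOpen (U : Set (GK K)) → ∃ (L : Type) (_ : Field L) (_ : NumberField L) (_ : Algebra K L)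
    (ι : GK L →* GK K), Fld U L ι

/-- PART 5 (finitely many solvable extensions).  From `S_FinChar` and `S_Fld`.
Proof by induction on `D` (for all `K`).  Let `U ≠ ⊤`.  `U1 = U ⊔ [G, G]` is not `⊤` (solvable quotient), and it is
the intersection of the kernels of the characters `θ : G → ℂˣ` trivial on `U1` (finite abelian group),
`θ^(D!) = 1`, `UnrOut N θ.ker`: finitely many possibilities for `U1` (`S_FinChar`).  Let `L`, `ι` be from `S_Fld`
for `U1`; `U.comap ι` is open, normal, of index `≤ D / 2`, with solvable quotient, and `UnrOut N`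
(`Fld.inert`); finitely many possibilities by induction; and `U = (U.comap ι).map ι`. -/
def S_HM : Prop := ∀ (K : Type) [Field K] [NumberField K] (N D : ℕ), 2 ≤ N →
  {U : Subgroup (GK K) | U.Normal ∧ IsOpen (U : Set (GK K)) ∧ U.index ≤ D ∧
    (∃ r, derivedSeries (GK K) r ≤ U) ∧ UnrOut N U}.Finite

/-- PART 6 (a number field containing all the conjugates of given number fields).
Proof: the subfield of `QBar` generated by `j(E)` and the images of all the embeddings of the `L i` in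
`QBar`. -/
def S_Emb : Prop := ∀ (E : Type) [Field E] [NumberField E] (j : E →+* QBar) (r : ℕ)
  (L : Fin r → Type) [∀ i, Field (L i)] [∀ i, NumberField (L i)],
  ∃ (E' : Type) (_ : Field E') (_ : NumberField E') (i : E →+* E') (j' : E' →+* QBar),
    j'.comp i = j ∧ ∀ a, Fintype.card (L a →+* E') = Module.finrank ℚ (L a)

/-- PART 7 (densities in extensions).
Proof.  The places of `E'` of degree `≥ 2` have density zero (`Pool.Agent.H500.HC.all_Deg`).  Above a place of
`E` there are at most `[E' : ℚ]` places of `E'`; a place of `E'` of prime norm `p` lies above a place of `E` of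
norm `p`. -/
def S_Lift : Prop := ∀ (E E' : Type) [Field E] [NumberField E] [Field E'] [NumberField E']
  (i : E →+* E') (Good : HeightOneSpectrum (𝓞 E) → Prop),
  Tendsto (dens fun lam => ¬ Good lam) atTop (𝓝 0) →
  Tendsto (dens fun lam' : HeightOneSpectrum (𝓞 E') => ¬ ∃ lam : HeightOneSpectrum (𝓞 E), Good lam ∧
    lam'.asIdeal.comap (RingOfIntegers.mapRingHom i) = lam.asIdeal) atTop (𝓝 0)

/-- PART 7b (reduction maps).
Proof.  `𝔔` a maximal ideal of `ZBar` with `𝔔 ∩ 𝓞_{E'} = lam'` (integral extension), `κ = ZBar / 𝔔`, algebraic over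
the image of `𝓞_E / lam`; the embedding of `𝓞_E / lam` in the algebraically closed field `k` given by `φ` extends to
`κ` (`IsAlgClosed.lift`). -/
def S_Psi : Prop := ∀ (E E' : Type) [Field E] [NumberField E] [Field E'] [NumberField E']
  (i : E →+* E') (j' : E' →+* QBar) (lam : HeightOneSpectrum (𝓞 E))
  (lam' : HeightOneSpectrum (𝓞 E')), lam'.asIdeal.comap (RingOfIntegers.mapRingHom i) = lam.asIdeal →
  ∀ (k : Type) [Field k] [IsAlgClosed k] (φ : 𝓞 E →+* k), RingHom.ker φ = lam.asIdeal →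
  ∃ ψ : ZBar →+* k, RingHom.ker (ψ.comp (jz j')) = lam'.asIdeal ∧
    ψ.comp (jz (j'.comp i)) = φ

/-! ## Part C: the local data -/

section
variable {K E : Type} [Field K] [NumberField K] [Field E] [NumberField E]

/-- a residual representation at `lam` which is diagonal on an open normal subgroup `U` of index `≤ B`
with solvable quotient -/
structure SD (j : E →+* QBar) (N n B : ℕ) (P : HeightOneSpectrum (𝓞 K) → (𝓞 E)[X])
    (lam : HeightOneSpectrum (𝓞 E)) where
  k : Type
  [fk : Field k]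
  [ac : IsAlgClosed k]
  ψ : ZBar →+* k
  ρ : GK K →* GL (Fin n) k
  U : Subgroup (GK K)
  hker : RingHom.ker (ψ.comp (jz j)) = lam.asIdeal
  hop : IsOpen (ρ.ker : Set (GK K))
  hun : UnrOut (N * Ideal.absNorm lam.asIdeal) ρ.ker
  hfr : ∀ v : HeightOneSpectrum (𝓞 K), (N : 𝓞 K) ∉ v.asIdeal →
    ((Ideal.absNorm lam.asIdeal : ℕ) : 𝓞 K) ∉ v.asIdeal → ∀ σ, IsFrob v σ →
    (ρ σ : Matrix (Fin n) (Fin n) k).charpoly = (P v).map (ψ.comp (jz j))
  hUn : U.Normal
  hUk : ρ.ker ≤ U
  hUi : U.index ≤ B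
  hsol : ∃ r, derivedSeries (GK K) r ≤ U
  hdiag : ∀ u ∈ U, (ρ u : Matrix (Fin n) (Fin n) k).IsDiag

attribute [instance] SD.fk SD.ac

variable {j : E →+* QBar} {N n B : ℕ} {P : HeightOneSpectrum (𝓞 K) → (𝓞 E)[X]}
  {lam : HeightOneSpectrum (𝓞 E)}

/-- the `M`-th powers of the `i`-th and the `i'`-th character of `U` agree -/
def SD.rel (S : SD j N n B P lam) (M : ℕ) (i i' : Fin n) : Prop :=
  ∀ u ∈ S.U, (S.ρ u : Matrix (Fin n) (Fin n) S.k) i i ^ M =
    (S.ρ u : Matrix (Fin n) (Fin n) S.k) i' i' ^ M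

/-- `ρ(g)` is diagonal, with equal entries at `i`, `i'` if `rel M i i'` -/
def SD.Z (S : SD j N n B P lam) (M : ℕ) (g : GK K) : Prop :=
  (S.ρ g : Matrix (Fin n) (Fin n) S.k).IsDiag ∧ ∀ i i', S.rel M i i' →
    (S.ρ g : Matrix (Fin n) (Fin n) S.k) i i = (S.ρ g : Matrix (Fin n) (Fin n) S.k) i' i'

/-- `M` is good for the local data (see `S_Cho`) -/
def SD.Good (S : SD j N n B P lam) (M m0 : ℕ) : Prop :=
  ∀ i i', S.rel M i i' ∨ ∀ s : ℕ, 0 < s → s ≤ n ^ 2 → ∃ u ∈ S.U,
    (S.ρ u : Matrix (Fin n) (Fin n) S.k) i i ^ (M * m0 * s) ≠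
      (S.ρ u : Matrix (Fin n) (Fin n) S.k) i' i' ^ (M * m0 * s)

/-- no quotient of two different roots is a root of unity -/
def NoRU (α : HeightOneSpectrum (𝓞 K) → Fin n → ZBar) (v : HeightOneSpectrum (𝓞 K)) : Prop :=
  ∀ i i', (∃ m : ℕ, 0 < m ∧ α v i ^ m = α v i' ^ m) → α v i = α v i'

end

/-- PART 8 (the subgroup `U'`).
Proof.  Subgroup: clear.  Open: contains `ρ.ker`.  Normal: let `𝒵` be the `k`-span of the matrices `ρ(u)^M`,
`u ∈ U`.  It is stable under conjugation by `ρ(g)` (`U` normal).  `𝒵` is the space of the diagonal matrices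
with equal entries at `i`, `i'` whenever `rel M i i'`: the functions `u ↦ (ρ u i i)^M` for representatives `i` of the
classes of `rel M` are different homomorphisms from `U` to `k`, so linearly independent
(`linearIndependent_monoidHom`; a subspace of `k^d` on which no nonzero linear form vanishes is
everything).  So `U' = {g | ρ(g) ∈ 𝒵}`.  Index: `[G : U'] ≤ [G : U ⊓ U'] = [G : U] [U : U ⊓ U']`, and `U / (U ⊓ U')`
embeds in the product of the groups of `M`-th roots of unity of `k` over the pairs with `rel M i i'`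
(`u ↦ ρ u i i / ρ u i' i'`).  Solvable: `ρ(U)` is abelian, so `derivedSeries (r + 1) ≤ ρ.ker ≤ U'`. -/
def S_UM : Prop := ∀ (K E : Type) [Field K] [NumberField K] [Field E] [NumberField E]
  (j : E →+* QBar) (N n B : ℕ) (P : HeightOneSpectrum (𝓞 K) → (𝓞 E)[X])
  (lam : HeightOneSpectrum (𝓞 E)) (S : SD j N n B P lam) (M : ℕ), 0 < M →
  ∃ U' : Subgroup (GK K), (∀ g, g ∈ U' ↔ S.Z M g) ∧ U'.Normal ∧ IsOpen (U' : Set (GK K)) ∧
    S.ρ.ker ≤ U' ∧ U'.index ≤ B * M ^ (n ^ 2) ∧ (∃ r, derivedSeries (GK K) r ≤ U') ∧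
    ∀ u ∈ S.U, u ^ M ∈ U'

/-- PART 9 (the Frobenius elements of generic places are in `U'`).
Proof.  Exclude the `lam` which contain `M`, the norm of `v` (so that the norm of `lam` is not in `v`) or one of
the `α i ^ (M²) - α i' ^ (M²) ≠ 0` (in the sense `ψ(…) = 0`: finitely many `lam`, `Pool.Agent.H500.HC.dvd_int` /
`eq_zero_of_inf`).  Let `T = ρ(σ)`, eigenvalues `ψ(α i)`.  `σ^M ∈ U` (`B! ∣ M`, `[G : U] ≤ B`), so `T^M` is diagonal;
as `M ≠ 0` in `k`, `T` is diagonalizable (`T` is a root of the separable polynomial `∏ (X^M - c)` over the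
different diagonal entries `c ≠ 0` of `T^M`).  `T^(M²) = ρ(σ^M)^M` is diagonal with equal entries at `i`, `i'` if
`rel M i i'`.  Different eigenvalues of `T` have different `M²`-th powers, so `T = q(T^(M²))` for a polynomial
`q` (Lagrange interpolation), and `T` is diagonal with equal entries if `rel M i i'`. -/
def S_E1 : Prop := ∀ (K E : Type) [Field K] [NumberField K] [Field E] [NumberField E]
  (j : E →+* QBar) (N n B M : ℕ) (P : HeightOneSpectrum (𝓞 K) → (𝓞 E)[X])
  (α : HeightOneSpectrum (𝓞 K) → Fin n → ZBar), 0 < M → B.factorial ∣ M →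
  ∀ v : HeightOneSpectrum (𝓞 K), (N : 𝓞 K) ∉ v.asIdeal →
  (P v).map (jz j) = ∏ i, (X - Polynomial.C (α v i)) → NoRU α v →
  {lam : HeightOneSpectrum (𝓞 E) | ∃ S : SD j N n B P lam, ∃ σ, IsFrob v σ ∧ ¬ S.Z M σ}.Finite

/-- PART 10 (there are many generic places).  From `S_UM`, `S_E1`, `Pool.Agent.H500.R2.S_Spl`.
Proof.  For `S : SD` at `lam`, `U'` from `S_UM`, `d(S)` = the number of classes of `rel M`, `δ_i(g) = ρ(g)_{ii}` for `g ∈ U'`.
Only `lam` not containing `m0`, `M` are considered.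
(i) Let `H` be an open subgroup of `U'`, normal in `G`, such that for no pair with `¬ rel M i i'` and no `0 < s ≤ n²`
the character `(δ_i / δ_i')^(m0 s)` is trivial on `H`.  Then there is `g ∈ H` with `(δ_i(g)/δ_i'(g))^m0 ≠ 1` for all pairs
with `¬ rel M i i'` (in the finite group `H / ρ.ker` the subgroups `{(δ_i / δ_i')^m0 = 1}` have index `> n²`, so
they do not cover it).  Let `v` be a place not containing `N`, the norm of `lam`, with a Frobenius element
`σ ∈ g · ρ.ker`: the eigenvalues `ψ(α v i)` are the `δ_i(g)`, so `α v i ^ m = α v i' ^ m` implies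
`α v i ^ m0 = α v i' ^ m0`, so `ψ(α v i)`, `ψ(α v i')` are entries `δ_a(g)`, `δ_b(g)` with `rel M a b`, so equal, and
`α v i = α v i'` (`Pool.Agent.H500.HC.root_unique`): `NoRU α v`, and `α v` has at least `d(S)` different values.
(ii) `H = U'` satisfies the condition in (i) (`S.Good M m0`, `u^M ∈ U'`).  So `d(S) ≤ d_max`, the maximal number of
different values of `α v` for `v ∤ N` with `NoRU α v`.  Let `v0` be a place where it is attained.  For almost all
`lam` in `Λ` the Frobenius elements `σ` at `v0` are in `U'` (`S_E1`), and `ψ` is injective on the values of `α v0`: so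
`d(S) = d_max` and `δ_i(σ) ≠ δ_i'(σ)` if `¬ rel M i i'`.
(iii) Let `U0` be the open normal subgroup of `S_Spl`, `i0` its index, `R = m0 * (n²)! * i0`.  For almost all `lam` in `Λ`:
`(δ_i(σ) / δ_i'(σ))^R ≠ 1` for all pairs with `¬ rel M i i'`, by (ii), since `α v0 a ^ R ≠ α v0 b ^ R` if
`α v0 a ≠ α v0 b` (`NoRU`).  So `H = U' ⊓ U0` satisfies the condition in (i) (`σ^i0 ∈ H`).  Take `g ∈ H` as in (i) and
`S_Spl` for `g ∈ U0` and `ρ.ker`: infinitely many `v` with `SpC E v` and a Frobenius element in `g ρ.ker`. -/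
def S_E2 : Prop := ∀ (K E : Type) [Field K] [NumberField K] [Field E] [NumberField E]
  (j : E →+* QBar) (N n B M m0 : ℕ) (P : HeightOneSpectrum (𝓞 K) → (𝓞 E)[X])
  (α : HeightOneSpectrum (𝓞 K) → Fin n → ZBar), 0 < N → 0 < m0 → 0 < M → B.factorial ∣ M →
  (∀ v : HeightOneSpectrum (𝓞 K), (N : 𝓞 K) ∉ v.asIdeal →
    (P v).map (jz j) = ∏ i, (X - Polynomial.C (α v i))) →
  (∀ v : HeightOneSpectrum (𝓞 K), (N : 𝓞 K) ∉ v.asIdeal → ∀ i i',
    (∃ m : ℕ, 0 < m ∧ α v i ^ m = α v i' ^ m) → α v i ^ m0 = α v i' ^ m0) →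
  ∀ Λ : Set (HeightOneSpectrum (𝓞 E)), Λ.Infinite →
  (∀ lam ∈ Λ, ∃ S : SD j N n B P lam, S.Good M m0) →
  {v : HeightOneSpectrum (𝓞 K) | (N : 𝓞 K) ∉ v.asIdeal ∧ SpC E v ∧ NoRU α v}.Infinite

/-- PART 11 (the subgroups `U'` are the same for many `lam`).  From `S_UM`, `S_E1`, `S_HM`, and
`Pool.Agent.H500.R2.S_Cyc`.
Proof.  For `lam` with `Λ lam` choose `S`, and `U' = U'_lam` from `S_UM`.  Let `U^nr_lam` be the subgroup generated by
`U'_lam` and all the inertia elements at the places `v ∤ N` (normal, open, index `≤ B M^(n²)`, `UnrOut N`).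
By `S_HM` and `PosUD` it is a constant subgroup `U0` for `lam` in `Λ3 ⊆ Λ`, `PosUD Λ3`.  Let `L`, `ι` be from the
hypothesis for `U0`.  `W lam θ`: `Λ3 lam`, `θ : GK L →* ℂˣ`, `θ s ^ m = 1` (`m = (B M^(n²))!`), `U'_lam.comap ι ≤ θ.ker`.
`V' = {w | N ∉ w, SpC E w, w above some v ∈ V}` is infinite: for `v ∈ V`, `σ` Frobenius at `v`; `σ ∈ U'_lam ≤ U0` for
almost all `lam` (`S_E1`), so `σ = ι s` and `Fld.frob'` gives `w`.  For `w ∈ V'`, above `v`, and `s` Frobenius at `w`:
`ι s = σ^f τ` (`Fld.frob`), in `U'_lam` for almost all `lam` (`S_E1`; `τ ∈ ρ.ker` as `v` does not contain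
`N * N(lam)`), so `θ s = 1`.  `UnrOut (N * N(lam)) θ.ker` by `Fld.inert`.  So by `S_Cyc` (for `L`, `E`), for `lam` in a
set `Λ4 ⊆ Λ3`, `PosUD Λ4`, all `θ` with `W lam θ` are `UnrOut N`.  Let `lam ∈ Λ4`, `H = U'_lam.comap ι`, `H1 = H ⊔ [⊤, ⊤]`.
`H1` is the intersection of the kernels of these `θ` (finite abelian group `GK L / H1`), so `UnrOut N H1`; `H1.map ι`
is normal in `GK K`, contains `U'_lam`, and is `UnrOut N` (an inertia element at `v ∤ N` is in `U0 = ι.range`, and
`Fld.inert'`), so it contains `U0` and `H1 = ⊤`.  As `GK L / H` is solvable, `H = ⊤`, `U'_lam = U0`. -/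
def S_Res : Prop := ∀ (K E : Type) [Field K] [NumberField K] [Field E] [NumberField E]
  (j : E →+* QBar) (N n B M : ℕ) (P : HeightOneSpectrum (𝓞 K) → (𝓞 E)[X])
  (α : HeightOneSpectrum (𝓞 K) → Fin n → ZBar), 2 ≤ N → 0 < M → B.factorial ∣ M →
  (∀ v : HeightOneSpectrum (𝓞 K), (N : 𝓞 K) ∉ v.asIdeal →
    (P v).map (jz j) = ∏ i, (X - Polynomial.C (α v i))) →
  {v : HeightOneSpectrum (𝓞 K) | (N : 𝓞 K) ∉ v.asIdeal ∧ SpC E v ∧ NoRU α v}.Infinite →
  (∀ U : Subgroup (GK K), U.Normal → IsOpen (U : Set (GK K)) → U.index ≤ B * M ^ (n ^ 2) →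
    (∃ r, derivedSeries (GK K) r ≤ U) → UnrOut N U →
    ∃ (L : Type) (_ : Field L) (_ : NumberField L) (_ : Algebra K L) (ι : GK L →* GK K),
      Fld U L ι ∧ Fintype.card (L →+* E) = Module.finrank ℚ L) →
  ∀ Λ : HeightOneSpectrum (𝓞 E) → Prop, PosUD Λ → (∀ lam, Λ lam → Nonempty (SD j N n B P lam)) →
  ∃ U0 : Subgroup (GK K), U0.Normal ∧ IsOpen (U0 : Set (GK K)) ∧ U0.index ≤ B * M ^ (n ^ 2) ∧
    (∃ r, derivedSeries (GK K) r ≤ U0) ∧ UnrOut N U0 ∧
    PosUD fun lam => ∃ S : SD j N n B P lam, ∀ g ∈ U0, S.Z M g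

/-- PART 12 (the theorem over `L`).  From `Pool.Agent.H500.R2.gal_main` (file `Pool/Agent/H500/R2/Gal.lean`).
Proof.  For a place `w` of `L` above `v ∤ N`, `q_w = q_v^f`, let `P' w ∈ 𝓞_E[X]` be the characteristic polynomial
of the `f`-th power of the companion matrix of `P v` (roots: the `f`-th powers of the roots of `P v`;
`P v` is monic of degree `n` by the hypothesis on the `α v i`, `jz_inj`).  For `lam` with data `S` as in the
hypothesis, `θ i s = (ρ (ι s))_{ii}` are `n` characters of `GK L` (`ρ` is diagonal on `U0 = ι.range`), open kernels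
(`Fld.comap_open`), unramified outside `N` and `N(lam)` (`Fld.inert`), and for `s` Frobenius at `w`,
`ι s = σ^f τ` (`Fld.frob`), `ρ(ι s) = ρ(σ)^f`, so `∏ (X - θ i s)` is the characteristic polynomial of `ρ(σ)^f`, that is
`P' w` modulo `lam`.  So `AbGal N n P' lam`; apply `gal_main`. -/
def S_Fin : Prop := ∀ (K E L : Type) [Field K] [NumberField K] [Field E] [NumberField E]
  [Field L] [NumberField L] [Algebra K L] (j : E →+* QBar) (N n B M : ℕ)
  (P : HeightOneSpectrum (𝓞 K) → (𝓞 E)[X]) (α : HeightOneSpectrum (𝓞 K) → Fin n → ZBar)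
  (U0 : Subgroup (GK K)) (ι : GK L →* GK K), 2 ≤ N → Fld U0 L ι →
  Fintype.card (L →+* E) = Module.finrank ℚ L →
  (∀ v : HeightOneSpectrum (𝓞 K), (N : 𝓞 K) ∉ v.asIdeal →
    (P v).map (jz j) = ∏ i, (X - Polynomial.C (α v i))) →
  (PosUD fun lam => ∃ S : SD j N n B P lam, ∀ g ∈ U0, S.Z M g) →
  ∃ (e : ℕ) (t : Fin n → (L →+* E) → ℕ) (ψ : Fin n → (Ideal (𝓞 L) →*₀ ZBar)),
    (∀ i (𝔞 : Ideal (𝓞 L)), 𝔞 ≠ ⊥ → (ψ i 𝔞 ≠ 0 ↔ IsCoprime 𝔞 (Ideal.span {(N : 𝓞 L)}))) ∧
    (∀ i (x : 𝓞 L), InRay (N ^ e) x → ψ i (Ideal.span {x}) = jz j (typ (t i) x)) ∧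
    ∀ (v : HeightOneSpectrum (𝓞 K)) (w : HeightOneSpectrum (𝓞 L)) (f : ℕ),
      (N : 𝓞 K) ∉ v.asIdeal → Above w v →
      Ideal.absNorm w.asIdeal = Ideal.absNorm v.asIdeal ^ f →
      ∏ i, (X - Polynomial.C (α v i ^ f)) = ∏ i, (X - Polynomial.C (ψ i w.asIdeal))

end Pool.Agent.H500.SV
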